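import Mathlib
import Pool.Agent.Helper51.Flex.EUProof
import Pool.Agent.Helper51.Flex.CSProof
import Pool.Agent.Helper51.Flex.PolarProof
import Pool.Agent.Helper51.Flex.QFProof
import Pool.Agent.Helper51.Flex.ResProof
import Pool.Agent.Helper54.Flex.FunProof
import Pool.Agent.Helper45.Flex.CoreProof
import Pool.Agent.Helper51.Flex.ExProof

set_option autoImplicit false

open Pool.Agent.Helper51.Flex Pool.Agent.Helper24.Cubic

namespace Pool.Agent.Results.MP_f0185d_an.FlexCubic

/-- (1) For `n = 2` and ALL homogeneous polynomials `g`, `f` of degrees `2`, `3` in two variables,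
the affine cubic surface `{w³ + w g(z) + f(z) = 1}` admits a holomorphic immersion into `ℂ²`
(the restriction of an entire map).
(2) For every `n`: if there is a point `p ≠ 0` whose polar quadratic form
`y ↦ d(w³ + w g + f)_y(p)` is a product `L(y) M(y)` of two linear forms with `M(p) = 0`, then the
affine hypersurface `{w³ + w g(z) + f(z) = 1}` admits a holomorphic immersion into `ℂⁿ` (the
restriction of an entire map). -/
theorem result :
    (∀ g f : MvPolynomial (Fin 2) ℂ, g.IsHomogeneous 2 → f.IsHomogeneous 3 →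
      ∃ F : (Fin 2 → ℂ) × ℂ → (Fin 2 → ℂ), Differentiable ℂ F ∧
        ∀ z : (Fin 2 → ℂ) × ℂ,
          z.2 ^ 3 + z.2 * MvPolynomial.eval z.1 g + MvPolynomial.eval z.1 f = 1 →
          ∀ v : (Fin 2 → ℂ) × ℂ,
            fderiv ℂ (fun y : (Fin 2 → ℂ) × ℂ =>
              y.2 ^ 3 + y.2 * MvPolynomial.eval y.1 g + MvPolynomial.eval y.1 f) z v = 0 →
            fderiv ℂ F z v = 0 → v = 0) ∧
    (∀ (n : ℕ) (g f : MvPolynomial (Fin n) ℂ), g.IsHomogeneous 2 → f.IsHomogeneous 3 →
      ∀ (p : (Fin n → ℂ) × ℂ) (L M : ((Fin n → ℂ) × ℂ) →L[ℂ] ℂ), p ≠ 0 → M p = 0 →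
        (∀ y : (Fin n → ℂ) × ℂ, fderiv ℂ (fun y : (Fin n → ℂ) × ℂ =>
          y.2 ^ 3 + y.2 * MvPolynomial.eval y.1 g + MvPolynomial.eval y.1 f) y p = L y * M y) →
        ∃ F : (Fin n → ℂ) × ℂ → (Fin n → ℂ), Differentiable ℂ F ∧
          ∀ z : (Fin n → ℂ) × ℂ,
            z.2 ^ 3 + z.2 * MvPolynomial.eval z.1 g + MvPolynomial.eval z.1 f = 1 →
            ∀ v : (Fin n → ℂ) × ℂ,
              fderiv ℂ (fun y : (Fin n → ℂ) × ℂ =>
                y.2 ^ 3 + y.2 * MvPolynomial.eval y.1 g + MvPolynomial.eval y.1 f) z v = 0 →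
              fderiv ℂ F z v = 0 → v = 0) := by
  have hpol : PolarImm :=
    polarImm_of (Pool.Agent.Helper45.Flex.flexCore_of (flexFun_of eu cs))
  have hex : FlexExists := flexExists_of qf res
  refine ⟨fun g f hg hf => ?_, fun n g f hg hf p L M hp hM hL => ?_⟩
  · obtain ⟨p, L, M, hp, hM, hL⟩ := hex g f hg hf
    exact hpol 2 g f hg hf p L M hp hM hL
  · exact hpol n g f hg hf p L M hp hM hL

end Pool.Agent.Results.MP_f0185d_an.FlexCubic
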