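import Mathlib
import Pool.Agent.Helper24.Cubic.Immersion

set_option autoImplicit false

namespace Pool.Agent.Results.MP_f0185d_an.SingularCubic

/-- Let `g`, `f` be homogeneous polynomials of degrees `2` and `3` in `n` variables. If the cubic
form `w³ + w g(z) + f(z)` has a critical point `p ≠ 0` (i.e. the projective cubic hypersurface
`{w³ + w g + f = 0}` is singular at `[p]`), then the affine hypersurface
`{w³ + w g(z) + f(z) = 1}` admits a holomorphic immersion into `ℂⁿ`, which is moreover the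
restriction of an entire map. -/
theorem result (n : ℕ) (g f : MvPolynomial (Fin n) ℂ) (hg : g.IsHomogeneous 2)
    (hf : f.IsHomogeneous 3) (p : (Fin n → ℂ) × ℂ) (hp : p ≠ 0)
    (hsing : fderiv ℂ (fun y : (Fin n → ℂ) × ℂ =>
      y.2 ^ 3 + y.2 * MvPolynomial.eval y.1 g + MvPolynomial.eval y.1 f) p = 0) :
    ∃ F : (Fin n → ℂ) × ℂ → (Fin n → ℂ), Differentiable ℂ F ∧
      ∀ z : (Fin n → ℂ) × ℂ,
        z.2 ^ 3 + z.2 * MvPolynomial.eval z.1 g + MvPolynomial.eval z.1 f = 1 →
        ∀ v : (Fin n → ℂ) × ℂ,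
          fderiv ℂ (fun y : (Fin n → ℂ) × ℂ =>
            y.2 ^ 3 + y.2 * MvPolynomial.eval y.1 g + MvPolynomial.eval y.1 f) z v = 0 →
          fderiv ℂ F z v = 0 → v = 0 :=
  Pool.Agent.Helper24.Cubic.singular_cubic_immersion n g f hg hf p hp hsing

end Pool.Agent.Results.MP_f0185d_an.SingularCubic
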